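import Mathlib
import Pool.Agent.Helper64.HK.Defs
import Pool.Agent.Helper24.HM.Defs

/-!
# Project HK: configurations near a flop curve, Zariski closure of the rational points (definitions)

* Letters: `none` (the starting letter `y`) and `some (l, i)`: the `i`-th root of `psh` in the factor
  `l.succ`. `Un`: the unknowns `u` and `z`.
* `Sel`: the choices: `S` (five free coordinates of `u`; all others are zero in the system),
  `f` (the factor of the starting letter), `j`, `m'`, `l` (the special letters).
* `Eqn`: the square system, indexed by the unknowns themselves.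
* `Pp`: the product of the quantities which must not vanish.
* `Cfg`: a configuration over the `p`-adic integers, with small right hand sides.
* `Cone`, `Zc`: the points with coordinates in `K` of the cone over the variety and their Zariski
  closure.
* `NoPair`: two relatively prime polynomials in `u` do not vanish together at all rational points.
-/

set_option autoImplicit false

namespace Pool.Agent.Helper24.HK

open MvPolynomial Pool.Agent.Helper64.HK
open Pool.Agent.Helper28.HN (I aff)

/-- The letters: `none` is the starting letter. -/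
abbrev Lt (k m : ℕ) := Option (Fin k × Fin (m + 1))

/-- The unknowns: the coordinates of `t` and the roots. -/
abbrev Un (k m : ℕ) := (Fin k × Fin (m + 1)) ⊕ Lt k m

/-- The choices. -/
structure Sel (k m : ℕ) where
  /-- the free coordinates of `u` -/
  S : Fin 5 → Fin k × Fin (m + 1)
  hS : Function.Injective S
  /-- the factor of the starting letter -/
  f : Fin k
  /-- the letter at which the special value is taken; the first letter of the cycle -/
  j : Fin k × Fin (m + 1)
  /-- the letter of the special direction; the second letter of the cycle -/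
  m' : Fin k × Fin (m + 1)
  /-- the third letter of the cycle -/
  l : Fin k × Fin (m + 1)
  hjm : j ≠ m'
  hml : m' ≠ l
  hlj : l ≠ j

/-- The factor of a letter. -/
def Sel.ty {k m : ℕ} (s : Sel k m) : Lt k m → Fin k
  | none => s.f
  | some q => q.1

/-- Coordinates of `t` as one vector, and back. -/
def tr {k m : ℕ} {S : Type*} (x : Fin (k * (m + 1)) → S) : Fin k × Fin (m + 1) → S :=
  fun q => x (finProdFinEquiv q)

/-- Coordinates of `t` as one vector. -/
def tr' {k m : ℕ} {S : Type*} (u : Fin k × Fin (m + 1) → S) : Fin (k * (m + 1)) → S :=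
  fun i => u (finProdFinEquiv.symm i)

/-- The vector with the components `v` in the factor `l`. -/
def em {k m : ℕ} {S : Type*} [Zero S] (l : Fin k) (v : Fin (m + 1) → S) :
    Fin (k * (m + 1)) → S :=
  fun i => if (finProdFinEquiv.symm i).1 = l then v (finProdFinEquiv.symm i).2 else 0

section config

variable {k m : ℕ} {a : Fin (k + 1) → Fin (m + 1)} {S : Type*} [CommRing S]

/-- The point `t` of a configuration. -/
def pt (x : Un k m → S) : Fin (k + 1) → I m → S := ct fun q => x (.inl q)

/-- The direction of the letter `b` (in the factor `(s.ty b).succ`). -/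
noncomputable def xz (c : Ix a → S) (s : Sel k m) (x : Un k m → S) (b : Lt k m) : I m → S :=
  xh c (s.ty b).succ (Xz c (pt x) (x (.inr b)))

/-- The square system. -/
noncomputable def Eqn (c : Ix a → S) (s : Sel k m) (x : Un k m → S) : Un k m → S
  | .inr b => psh c (s.ty b).succ (pt x) (x (.inr b))
  | .inl e =>
    if e = s.S 0 then kah c s.f.succ (pt x) (x (.inr none)) else
    if e = s.S 1 then Fh c (pt x) (x (.inr none)) else
    if e = s.S 2 then Ah c (pt x) else
    if e = s.S 3 then Bh c (pt x) else
    if e = s.S 4 then qh c s.m'.1.succ (pt x) (xz c s x (some s.m')) (x (.inr (some s.j))) else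
    x (.inl e)

/-- The matrix of the directions of the letters of the factor `l.succ`. -/
noncomputable def Vm (c : Ix a → S) (x : Un k m → S) (l : Fin k) :
    Matrix (Fin (m + 1)) (Fin (m + 1)) S :=
  fun b i => vh c l.succ (Xz c (pt x) (x (.inr (some (l, b))))) i

/-- The product of the quantities which must not vanish. -/
noncomputable def Pp (c : Ix a → S) (s : Sel k m) (x : Un k m → S) : S :=
  (Mx c (pt x)).det *
  (∏ b : Lt k m, ∏ b' : Lt k m, if b = b' then 1 else x (.inr b) - x (.inr b')) *
  (∏ b : Lt k m, (Nx c (s.ty b).succ (Xz c (pt x) (x (.inr b)))).det) *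
  (∏ q : Fin k × Fin (m + 1), kah c q.1.succ (pt x) (x (.inr (some q)))) *
  (∏ q : Fin k × Fin (m + 1), th c q.1.succ (pt x) (x (.inr (some q)))) *
  (∏ q : Fin k × Fin (m + 1),
    (psP c q.1.succ (pt x)).derivative.eval (x (.inr (some q)))) *
  (∏ b : Lt k m, ∏ b' : Lt k m, if b = b' ∨ (b = some s.m' ∧ b' = some s.j) then 1 else
    qh c (s.ty b).succ (pt x) (xz c s x b) (x (.inr b'))) *
  ∏ l : Fin k, (Vm c x l).det

/-- The system as polynomials in the unknowns. -/
noncomputable def Gs (c : Ix a → S) (s : Sel k m) (i : Un k m) : MvPolynomial (Un k m) S :=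
  Eqn (fun e => C (c e)) s X i

end config

/-- A configuration near a flop curve: small right hand sides. -/
structure Cfg {p : ℕ} [Fact p.Prime] {k m : ℕ} {a : Fin (k + 1) → Fin (m + 1)} (c : Ix a → ℤ_[p])
    (s : Sel k m) (x : Un k m → ℤ_[p]) : Prop where
  psi : ∀ b, psh c (s.ty b).succ (pt x) (x (.inr b)) = 0
  kap : kah c s.f.succ (pt x) (x (.inr none)) = 0
  F0 : Fh c (pt x) (x (.inr none)) = 0
  hA : ‖Ah c (pt x)‖ ≤ (p : ℝ) ^ (-2 : ℤ)
  hB : ‖Bh c (pt x)‖ ≤ (p : ℝ) ^ (-2 : ℤ)
  hq : ‖qh c s.m'.1.succ (pt x) (xz c s x (some s.m')) (x (.inr (some s.j)))‖ = (p : ℝ) ^ (-1 : ℤ)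
  hP : IsUnit (Pp c s x)
  hst : ‖Ah c (pt x) * qh c s.f.succ (pt x) (xz c s x none) (x (.inr (some s.j))) -
    qa c s.f.succ (pt x) (xz c s x none) * Fh c (pt x) (x (.inr (some s.j)))‖ = (p : ℝ) ^ (-2 : ℤ)

/-- The local data of the variety over the `p`-adic integers: one direction for every factor
`l.succ`. -/
structure IsLoc {p : ℕ} [Fact p.Prime] {k m : ℕ} {a : Fin (k + 1) → Fin (m + 1)}
    (c : Ix a → ℤ_[p]) (L : Pool.Agent.Helper24.HM.LocM p (k * (m + 1)) (Fin k)) : Prop where
  hA : ∀ x, L.A x = (Mx c (ct (tr x))).det * Ah c (ct (tr x))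
  hB : ∀ x, L.B x = (Mx c (ct (tr x))).det * (2 * Bh c (ct (tr x)))
  hC : ∀ x, L.C x = (Mx c (ct (tr x))).det * Ch c (ct (tr x))
  hxi : ∀ l x z, L.xi l x z = em l (vh c l.succ (Xz c (ct (tr x)) z))
  hpsi : ∀ l x z, L.psi l x z = 2 * th c l.succ (ct (tr x)) z * psh c l.succ (ct (tr x)) z
  hkap : ∀ l x z, L.kap l x z = th c l.succ (ct (tr x)) z * kah c l.succ (ct (tr x)) z
  hsl : ∀ l x z, psh c l.succ (ct (tr x)) z = 0 → L.sl l x z z =
    2 * th c l.succ (ct (tr x)) z * (psP c l.succ (ct (tr x))).derivative.eval z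
  hd : ∀ l x v, ∃ d, (∀ z, L.dF x (em l v) z =
      qh c l.succ (ct (tr x)) (Fin.cons 0 v) z + d * Fh c (ct (tr x)) z) ∧
    L.dA x (em l v) = qa c l.succ (ct (tr x)) (Fin.cons 0 v) + d * Ah c (ct (tr x))

/-- The reference configuration which belongs to a configuration. -/
structure IsRef {p : ℕ} [Fact p.Prime] {k m : ℕ}
    {L : Pool.Agent.Helper24.HM.LocM p (k * (m + 1)) (Fin k)} (s : Sel k m) (x : Un k m → ℤ_[p])
    (R : Pool.Agent.Helper24.HM.RefM L (Lt k m)) : Prop where
  u0 : R.u0 = tr' fun q => x (.inl q)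
  z : R.z = fun b => x (.inr b)
  ty : R.ty = s.ty
  y : R.y = none
  j : R.j = some s.j
  m : R.m = some s.m'
  l : R.l = some s.l

/-- A point with coordinates in the field of `p`-adic numbers. -/
def cq {p : ℕ} [Fact p.Prime] {k m : ℕ} (P : Fin (k + 1) → I m → ℤ_[p]) :
    Fin (k + 1) → I m → ℚ_[p] := fun j i => (P j i : ℚ_[p])

section closure

variable {k m : ℕ} {a : Fin (k + 1) → Fin (m + 1)} {E : Type*} [Field E]

/-- The points of the cone over the variety with coordinates in `K`. -/
def Cone (K : Set E) (c : Ix a → E) : Set (Fin (k + 1) → I m → E) :=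
  {P | (∀ j i, P j i ∈ K) ∧ OnX c P}

/-- Their Zariski closure. -/
def Zc (K : Set E) (c : Ix a → E) : Set (Fin (k + 1) → I m → E) :=
  {P | ∀ F : MvPolynomial (Fin (k + 1) × I m) E,
    (∀ Q ∈ Cone K c, eval (fun q => Q q.1 q.2) F = 0) → eval (fun q => P q.1 q.2) F = 0}

end closure

section nopair

variable {k m : ℕ} {a : Fin (k + 1) → Fin (m + 1)} {K : Type*} [Field K]

/-- Two relatively prime polynomials in the affine coordinates of `t` do not vanish together at
all rational points of the variety with affine coordinates. -/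
def NoPair (c : Ix a → K) : Prop :=
  ∀ F1 F2 : MvPolynomial (Fin k × Fin (m + 1)) K, IsRelPrime F1 F2 →
    ∃ P : Fin (k + 1) → I m → K, OnX c P ∧ (∀ j, P j 0 = 1) ∧
      (eval (fun q => P q.1.succ q.2.succ) F1 ≠ 0 ∨ eval (fun q => P q.1.succ q.2.succ) F2 ≠ 0)

end nopair

end Pool.Agent.Helper24.HK
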