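import Mathlib
import Pool.Agent.Helper24.HK.Cfg

/-!
# Project HK: the pieces (frames with sorry; proofs go to other files, in the namespace of the typist)
-/

set_option autoImplicit false

namespace Pool.Agent.Helper24.HK.Pieces

open MvPolynomial Pool.Agent.Helper64.HK Pool.Agent.Helper24.HM
open Pool.Agent.Helper28.HN (I aff)

/-! ## NAT: naturality of the system (helper45) -/

section nat

variable {k m : ℕ} {a : Fin (k + 1) → Fin (m + 1)} {S S' : Type*} [CommRing S] [CommRing S']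
  (f : S →+* S') (c : Ix a → S) (s : Sel k m) (x : Un k m → S)

theorem map_Eqn (i : Un k m) : f (Eqn c s x i) = Eqn (fun e => f (c e)) s (fun b => f (x b)) i := by
  sorry
theorem map_Pp : f (Pp c s x) = Pp (fun e => f (c e)) s (fun b => f (x b)) := by sorry

end nat

/-! ## ZCL: the Zariski closure of the rational points (helper37) -/

section zcl

variable {k m : ℕ} {a : Fin (k + 1) → Fin (m + 1)} {E : Type*} [Field E] (K : Subfield E)
  (c : Ix a → E)

theorem z_cone {P : Fin (k + 1) → I m → E} (h : P ∈ Cone (K : Set E) c) : P ∈ Zc (K : Set E) c := by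
  sorry

theorem z_on {P : Fin (k + 1) → I m → E} (h : P ∈ Zc (K : Set E) c) : OnX c P := by sorry

theorem z_scale (hK : (K : Set E).Infinite) {P : Fin (k + 1) → I m → E} (h : P ∈ Zc (K : Set E) c)
    (lam : Fin (k + 1) → E) : (fun j i => lam j * P j i) ∈ Zc (K : Set E) c := by sorry

theorem z_sg (hc : ∀ e, c e ∈ K) {P : Fin (k + 1) → I m → E} (h : P ∈ Zc (K : Set E) c)
    (j : Fin (k + 1)) : sg c j P ∈ Zc (K : Set E) c := by sorry

theorem z_line (hK : (K : Set E).Infinite) (P0 P1 : Fin (k + 1) → I m → E) (h0 : ∀ j i, P0 j i ∈ K)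
    (h1 : ∀ j i, P1 j i ∈ K) (hl : ∀ t ∈ K, OnX c (fun j i => P0 j i + t * P1 j i)) (t : E) :
    (fun j i => P0 j i + t * P1 j i) ∈ Zc (K : Set E) c := by sorry

/-- Polynomials in the affine coordinates of `t` (multiply the homogenisation by the product of all
first coordinates). -/
theorem z_aff (F : MvPolynomial (Fin k × Fin (m + 1)) E)
    (hF : ∀ Q ∈ Cone (K : Set E) c, (∀ j, Q j 0 = 1) →
      eval (fun q => Q q.1.succ q.2.succ) F = 0)
    {P : Fin (k + 1) → I m → E} (h : P ∈ Zc (K : Set E) c) (h0 : P 0 0 ≠ 0)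
    (h1 : ∀ j : Fin k, P j.succ 0 = 1) : eval (fun q => P q.1.succ q.2.succ) F = 0 := by sorry

end zcl

/-! ## DIFF: the derivative of the form on the line (helper94, helper82) -/

theorem diff_F {k m : ℕ} {a : Fin (k + 1) → Fin (m + 1)} {S : Type*} [CommRing S] (c : Ix a → S)
    (j : Fin k) (X : Fin (k + 1) → I m → S) (ξ : I m → S) :
    ∃ d : S, (∀ z, (Mx c X).det * ((Fh (fun e => Polynomial.C (c e))
      (fun l i => Polynomial.C (X l i) + if l = j.succ then Polynomial.X * Polynomial.C (ξ i) else 0)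
        (Polynomial.C z)).derivative.eval 0) = qh c j.succ X ξ z + 2 * d * Fh c X z) ∧
    (Mx c X).det * ((Ah (fun e => Polynomial.C (c e))
      (fun l i => Polynomial.C (X l i) +
        if l = j.succ then Polynomial.X * Polynomial.C (ξ i) else 0)).derivative.eval 0) =
      qa c j.succ X ξ + 2 * d * Ah c X := by sorry

/-! ## LOC: the local data (helper94) -/

theorem exists_loc {p : ℕ} [Fact p.Prime] {k m : ℕ} {a : Fin (k + 1) → Fin (m + 1)}
    (c : Ix a → ℤ_[p]) : ∃ L : LocM p (k * (m + 1)) (Fin k), IsLoc c L := by sorry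

/-! ## REF (helper94), MEMS (helper64) -/

theorem exists_ref {p : ℕ} [Fact p.Prime] (hp : p ≠ 2) {k m : ℕ} {a : Fin (k + 1) → Fin (m + 1)}
    (c : Ix a → ℤ_[p]) (s : Sel k m) (x : Un k m → ℤ_[p]) (h : Cfg c s x)
    (L : LocM p (k * (m + 1)) (Fin k)) (hL : IsLoc c L) : ∃ R : RefM L (Lt k m), IsRef s x R := by
  sorry

/-- The points of the closure `Zc`. The first graph is given by the line in the factor
`s.f.succ` over the point of the letter `none`. -/
theorem exists_mems {p : ℕ} [Fact p.Prime] (hp : p ≠ 2) {k m : ℕ} {a : Fin (k + 1) → Fin (m + 1)}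
    (c : Ix a → ℤ_[p]) (s : Sel k m) (x : Un k m → ℤ_[p]) (h : Cfg c s x)
    (L : LocM p (k * (m + 1)) (Fin k)) (hL : IsLoc c L) (R : RefM L (Lt k m)) (hR : IsRef s x R)
    (K : Subfield ℚ_[p]) (hc : ∀ e, (c e : ℚ_[p]) ∈ K) (hx : ∀ i, (x i : ℚ_[p]) ∈ K) :
    ∃ M : MemsM L R,
      (∀ N x z, M.Mem N x z ↔
        cq (Xz c (ct (tr x)) z) ∈ Zc (K : Set ℚ_[p]) fun e => (c e : ℚ_[p])) ∧
      (∀ N x z, M.Mem' N x z ↔
        cq (Xz c (ct (tr x)) z) ∈ Zc (K : Set ℚ_[p]) fun e => (c e : ℚ_[p])) ∧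
      ∃ x0, StM M none (some s.j) 2 0 x0 := by sorry

/-! ## UN: units in the ball (helper28) -/

section un

variable {p : ℕ} [Fact p.Prime] {k m : ℕ} {a : Fin (k + 1) → Fin (m + 1)} (c : Ix a → ℤ_[p])
  (s : Sel k m) (x : Un k m → ℤ_[p]) (h : Cfg c s x)

include h

theorem detM_unit (v : Fin k × Fin (m + 1) → ℤ_[p])
    (hv : ∀ q, ‖v q - x (.inl q)‖ ≤ (p : ℝ) ^ (-2 : ℤ)) : IsUnit (Mx c (ct v)).det := by sorry

theorem detN_unit (v : Fin k × Fin (m + 1) → ℤ_[p])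
    (hv : ∀ q, ‖v q - x (.inl q)‖ ≤ (p : ℝ) ^ (-2 : ℤ)) (b : Lt k m) (z : ℤ_[p])
    (hz : ‖z - x (.inr b)‖ ≤ (p : ℝ) ^ (-2 : ℤ)) :
    IsUnit (Nx c (s.ty b).succ (Xz c (ct v) z)).det := by sorry

/-- The directions at points in the ball are a basis. -/
theorem span_dir (v : Fin k × Fin (m + 1) → ℤ_[p])
    (hv : ∀ q, ‖v q - x (.inl q)‖ ≤ (p : ℝ) ^ (-2 : ℤ)) (ζ : Fin k × Fin (m + 1) → ℤ_[p])
    (hζ : ∀ q, ‖ζ q - x (.inr (some q))‖ ≤ (p : ℝ) ^ (-2 : ℤ)) :
    Submodule.span ℚ_[p] (Set.range fun q : Fin k × Fin (m + 1) =>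
      (Pool.Agent.Helper24.HN.cst (em q.1 (vh c q.1.succ (Xz c (ct v) (ζ q)))) :
        Fin (k * (m + 1)) → ℚ_[p])) = ⊤ := by sorry

end un

/-! ## FIN: the result of the dynamics (helper66, helper69, helper3) -/

/-- From `dyn`, `fin_x`, ELIM, `z_aff`. -/
theorem nopair_p {p : ℕ} [Fact p.Prime] (hp : p ≠ 2) {k m : ℕ} (hm : 2 ≤ m)
    {a : Fin (k + 1) → Fin (m + 1)} (c : Ix a → ℤ_[p]) (s : Sel k m) (x : Un k m → ℤ_[p])
    (h : Cfg c s x) (K : Subfield ℚ_[p]) (cK : Ix a → K)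
    (hc : ∀ e, ((cK e : K) : ℚ_[p]) = (c e : ℚ_[p])) (hx : ∀ i, (x i : ℚ_[p]) ∈ K) :
    NoPair cK := by sorry

/-! ## EXIST: configurations (helper76, helper60) -/

theorem exists_cfg {k m : ℕ} (hk : 2 ≤ k) (hm : 2 ≤ m) (a : Fin (k + 1) → Fin (m + 1)) :
    ∃ s : Sel k m, ∃ Δ : MvPolynomial (Ix a) ℚ, Δ ≠ 0 ∧
    ∀ (K : Type) [Field K] [NumberField K] (c : Ix a → K), aeval c Δ ≠ 0 →
      ∃ (L : Type) (_ : Field L) (_ : NumberField L) (_ : Algebra K L) (x : Un k m → L),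
        (∀ i, Eqn (fun e => algebraMap K L (c e)) s x i = 0) ∧
        Pp (fun e => algebraMap K L (c e)) s x ≠ 0 ∧
        (Matrix.of fun i j => eval x (pderiv j (Gs (fun e => algebraMap K L (c e)) s i))).det ≠ 0 := by
  sorry

/-! ## PADIC: (helper45) -/

/-- As for types 1 and 2. -/
theorem exists_padic {k m : ℕ} {a : Fin (k + 1) → Fin (m + 1)} (s : Sel k m) {L : Type} [Field L]
    [NumberField L] (c : Ix a → L) (x : Un k m → L) (hE : ∀ i, Eqn c s x i = 0)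
    (hP : Pp c s x ≠ 0) (hJ : (Matrix.of fun i j => eval x (pderiv j (Gs c s i))).det ≠ 0) :
    ∃ (p : ℕ) (_ : Fact p.Prime) (φ : L →+* ℚ_[p]) (c' : Ix a → ℤ_[p]) (x' : Un k m → ℤ_[p])
      (K : IntermediateField ℚ ℚ_[p]), p ≠ 2 ∧ FiniteDimensional ℚ K ∧ (∀ y, φ y ∈ K) ∧
      (∀ i, (x' i : ℚ_[p]) ∈ K) ∧ (∀ e, (c' e : ℚ_[p]) = φ (c e)) ∧ Cfg c' s x' := by sorry

/-! ## ORB: assembly of the dynamics (helper28) -/

/-- From `exists_cfg`, `exists_padic`, `nopair_p`. -/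
theorem nopair {k m : ℕ} (hk : 2 ≤ k) (hm : 2 ≤ m) (a : Fin (k + 1) → Fin (m + 1)) :
    ∃ Δ : MvPolynomial (Ix a) ℚ, Δ ≠ 0 ∧
    ∀ (K : Type) [Field K] [NumberField K] (c : Ix a → K), aeval c Δ ≠ 0 →
      ∃ (L : Type) (_ : Field L) (_ : NumberField L) (_ : Algebra K L),
        NoPair (fun e => algebraMap K L (c e)) := by sorry

/-! ## NI: (helper47, helper45, helper23) -/

/-- A polynomial in the affine coordinates of `t` which vanishes at all rational points is zero. -/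
theorem ni {k m : ℕ} (hm : 2 ≤ m) (a : Fin (k + 1) → Fin (m + 1)) :
    ∃ Δ : MvPolynomial (Ix a) ℚ, Δ ≠ 0 ∧
    ∀ (L : Type) [Field L] [NumberField L] (c : Ix a → L), aeval c Δ ≠ 0 → NoPair c →
      ∀ F : MvPolynomial (Fin k × Fin (m + 1)) L,
        (∀ P : Fin (k + 1) → I m → L, OnX c P → P 0 ≠ 0 → (∀ j : Fin k, P j.succ 0 = 1) →
          eval (fun q => P q.1.succ q.2.succ) F = 0) → F = 0 := by sorry

end Pool.Agent.Helper24.HK.Pieces
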